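import Mathlib

set_option autoImplicit false

/-!
A finite ortholattice which does not embed into any bipartition lattice `Bip n`.
-/

namespace Pool.Agent.Results.MP_35d0eb_al.NotEmbeddable

/-- An ortholattice: a bounded lattice with an orthocomplementation. -/
class OrthoLattice (K : Type) extends Lattice K, BoundedOrder K, Compl K where
  compl_anti : ∀ x y : K, x ≤ y → yᶜ ≤ xᶜ
  compl_compl' : ∀ x : K, xᶜᶜ = x
  inf_compl : ∀ x : K, x ⊓ xᶜ = ⊥

/-- A bipartition of an `n`-element set: a binary relation (given as a set of pairs) such that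
it and its complement are transitive. -/
@[ext]
structure Bip (n : ℕ) where
  rel : Set (Fin n × Fin n)
  trans : ∀ i j k, (i, j) ∈ rel → (j, k) ∈ rel → (i, k) ∈ rel
  cotrans : ∀ i j k, (i, j) ∉ rel → (j, k) ∉ rel → (i, k) ∉ rel

namespace Bip

variable {n : ℕ}

/-- the order is inclusion -/
instance : PartialOrder (Bip n) where
  le a b := a.rel ⊆ b.rel
  le_refl a := subset_refl a.rel
  le_trans a b c := fun h h' => subset_trans h h'
  le_antisymm a b := fun h h' => Bip.ext (subset_antisymm h h')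

/-- the orthocomplement is the set-theoretic complement -/
instance : Compl (Bip n) where
  compl a := ⟨a.relᶜ, fun i j k h h' => a.cotrans i j k h h',
    fun i j k h h' h2 => h2 (a.trans i j k (not_not.1 h) (not_not.1 h'))⟩

theorem mem_compl (a : Bip n) (i j : Fin n) : (i, j) ∈ aᶜ.rel ↔ (i, j) ∉ a.rel := Iff.rfl

theorem le_def (a b : Bip n) : a ≤ b ↔ a.rel ⊆ b.rel := Iff.rfl

theorem compl_compl' (a : Bip n) : aᶜᶜ = a := Bip.ext (compl_compl a.rel)

theorem compl_anti (a b : Bip n) (h : a ≤ b) : bᶜ ≤ aᶜ := Set.compl_subset_compl.2 h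

/-- the join is the transitive closure of the union -/
instance : Max (Bip n) where
  max a b :=
    { rel := {p | Relation.TransGen (fun i j => (i, j) ∈ a.rel ∪ b.rel) p.1 p.2}
      trans := fun i j k h h' => Relation.TransGen.trans h h'
      cotrans := by
        intro i j k h h' h2
        have key : ∀ x z, Relation.TransGen (fun i j => (i, j) ∈ a.rel ∪ b.rel) x z →
            Relation.TransGen (fun i j => (i, j) ∈ a.rel ∪ b.rel) x j ∨
            Relation.TransGen (fun i j => (i, j) ∈ a.rel ∪ b.rel) j z := by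
          intro x z hxz
          have one : ∀ x z, (x, z) ∈ a.rel ∪ b.rel →
              ((x, j) ∈ a.rel ∪ b.rel ∨ (j, z) ∈ a.rel ∪ b.rel) := by
            intro x z hx
            rcases hx with hx | hx
            · by_contra hcon
              push Not at hcon
              exact a.cotrans x j z (fun h => hcon.1 (Or.inl h)) (fun h => hcon.2 (Or.inl h)) hx
            · by_contra hcon
              push Not at hcon
              exact b.cotrans x j z (fun h => hcon.1 (Or.inr h)) (fun h => hcon.2 (Or.inr h)) hx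
          induction hxz with
          | single hx =>
            rcases one _ _ hx with h3 | h3
            · exact Or.inl (Relation.TransGen.single h3)
            · exact Or.inr (Relation.TransGen.single h3)
          | tail h1 h2 ih =>
            rcases ih with ih | ih
            · exact Or.inl ih
            · exact Or.inr (Relation.TransGen.tail ih h2)
        rcases key i k h2 with h3 | h3
        · exact h h3
        · exact h' h3 }

theorem mem_sup (a b : Bip n) (i j : Fin n) : (i, j) ∈ (a ⊔ b).rel ↔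
    Relation.TransGen (fun i j => (i, j) ∈ a.rel ∪ b.rel) i j := Iff.rfl

theorem le_sup_left' (a b : Bip n) : a ≤ a ⊔ b :=
  fun ⟨_, _⟩ h => Relation.TransGen.single (Or.inl h)

theorem le_sup_right' (a b : Bip n) : b ≤ a ⊔ b :=
  fun ⟨_, _⟩ h => Relation.TransGen.single (Or.inr h)

theorem sup_le' (a b c : Bip n) (h : a ≤ c) (h' : b ≤ c) : a ⊔ b ≤ c := by
  rintro ⟨i, j⟩ hij
  rw [mem_sup] at hij
  have one : ∀ x z, (x, z) ∈ a.rel ∪ b.rel → (x, z) ∈ c.rel := by
    rintro x z (hx | hx)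
    · exact h hx
    · exact h' hx
  induction hij with
  | single hx => exact one _ _ hx
  | tail _ h2 ih => exact c.trans _ _ _ ih (one _ _ h2)

/-- `Bip n` is an ortholattice: the join is the transitive closure of the union, the meet is
given by duality, the orthocomplement is the complement. -/
instance : OrthoLattice (Bip n) where
  sup a b := a ⊔ b
  inf a b := (aᶜ ⊔ bᶜ)ᶜ
  le_sup_left := le_sup_left'
  le_sup_right := le_sup_right'
  sup_le := sup_le'
  inf_le_left a b := by
    have h := compl_anti _ _ (le_sup_left' aᶜ bᶜ)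
    rwa [compl_compl' a] at h
  inf_le_right a b := by
    have h := compl_anti _ _ (le_sup_right' aᶜ bᶜ)
    rwa [compl_compl' b] at h
  le_inf a b c h h' := by
    have h2 := compl_anti _ _ (sup_le' bᶜ cᶜ aᶜ (compl_anti _ _ h) (compl_anti _ _ h'))
    rwa [compl_compl' a] at h2
  top := ⟨Set.univ, fun _ _ _ _ _ => trivial, fun _ _ _ h _ => absurd trivial h⟩
  bot := ⟨∅, fun _ _ _ h _ => h.elim, fun _ _ _ _ _ h => h.elim⟩
  le_top _ := Set.subset_univ _
  bot_le _ := Set.empty_subset _
  compl_anti := compl_anti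
  compl_compl' := compl_compl'
  inf_compl a := by
    apply Bip.ext
    apply Set.eq_empty_iff_forall_notMem.2
    rintro ⟨i, j⟩ h
    apply h
    rw [compl_compl' a, mem_sup]
    apply Relation.TransGen.single
    by_cases h2 : (i, j) ∈ a.rel
    · exact Or.inr h2
    · exact Or.inl h2

theorem mem_inf (a b : Bip n) (i j : Fin n) : (i, j) ∈ (a ⊓ b).rel ↔
    ¬ Relation.TransGen (fun i j => (i, j) ∈ aᶜ.rel ∪ bᶜ.rel) i j := Iff.rfl

theorem notMem_bot (i j : Fin n) : (i, j) ∉ (⊥ : Bip n).rel := fun h => h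

theorem row_inf (a b : Bip n) (i : Fin n) (ha : ∀ k, (i, k) ∈ a.rel) (hb : ∀ k, (i, k) ∈ b.rel)
    (k : Fin n) : (i, k) ∈ (a ⊓ b).rel := by
  rw [mem_inf]
  intro h
  obtain ⟨l, hl, -⟩ := Relation.TransGen.head'_iff.1 h
  rcases hl with hl | hl
  · exact hl (ha l)
  · exact hl (hb l)

theorem col_inf (a b : Bip n) (i : Fin n) (ha : ∀ k, (k, i) ∈ a.rel) (hb : ∀ k, (k, i) ∈ b.rel)
    (k : Fin n) : (k, i) ∈ (a ⊓ b).rel := by
  rw [mem_inf]
  intro h
  obtain ⟨l, -, hl⟩ := Relation.TransGen.tail'_iff.1 h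
  rcases hl with hl | hl
  · exact hl (ha l)
  · exact hl (hb l)

/-- a bipartition of a nonempty finite set has a last class -/
theorem last (hn : 0 < n) (a : Bip n) :
    (∃ i, ∀ k, (i, k) ∈ aᶜ.rel) ∨ (∃ i, ∀ k, (k, i) ∈ a.rel) := by
  have htr : IsTrans (Fin n) (fun j i => (i, j) ∈ a.rel ∧ (j, i) ∉ a.rel) :=
    ⟨fun x y z h h' => ⟨a.trans _ _ _ h'.1 h.1, a.cotrans _ _ _ h.2 h'.2⟩⟩
  have hir : Std.Irrefl (fun j i : Fin n => (i, j) ∈ a.rel ∧ (j, i) ∉ a.rel) :=
    ⟨fun x h => h.2 h.1⟩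
  have wf := Finite.wellFounded_of_trans_of_irrefl
    (fun j i : Fin n => (i, j) ∈ a.rel ∧ (j, i) ∉ a.rel)
  obtain ⟨i, -, hi⟩ := wf.has_min Set.univ ⟨⟨0, hn⟩, trivial⟩
  have hi' : ∀ k, (i, k) ∈ a.rel → (k, i) ∈ a.rel := by
    intro k hk
    by_contra h
    exact hi k trivial ⟨hk, h⟩
  by_cases h : (i, i) ∈ a.rel
  · right
    refine ⟨i, fun k => ?_⟩
    by_contra hk
    exact a.cotrans i k i (fun h2 => hk (hi' k h2)) hk h
  · left
    refine ⟨i, fun k hk => ?_⟩
    exact h (a.trans i k i hk (hi' k hk))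

end Bip

/-- the proper nonempty subsets of a four-element set -/
abbrev Mid : Type := {s : Finset (Fin 4) // s ≠ ∅ ∧ s ≠ Finset.univ}

/-- the horizontal sum of three copies of the Boolean algebra of subsets of a four-element set -/
inductive HS : Type
  | bot : HS
  | top : HS
  | mid (b : Fin 3) (s : Mid) : HS
  deriving DecidableEq, Fintype

namespace HS

/-- the order -/
def le : HS → HS → Prop
  | bot, _ => True
  | _, top => True
  | mid b s, mid b' s' => b = b' ∧ s.1 ⊆ s'.1
  | _, _ => False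

/-- the element of block `b` given by a set -/
def mk (b : Fin 3) (s : Finset (Fin 4)) : HS := if h : s ≠ ∅ ∧ s ≠ Finset.univ then mid b ⟨s, h⟩ else bot

/-- the meet -/
def meet : HS → HS → HS
  | bot, _ => bot
  | _, bot => bot
  | top, y => y
  | x, top => x
  | mid b s, mid b' s' => if b = b' then mk b (s.1 ∩ s'.1) else bot

/-- the orthocomplement -/
def oc : HS → HS
  | bot => top
  | top => bot
  | mid b s => mid b ⟨s.1ᶜ, by
      refine ⟨fun h => s.2.2 ?_, fun h => s.2.1 ?_⟩
      · rw [← compl_compl s.1, h]; rfl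
      · rw [← compl_compl s.1, h]; rfl⟩

instance : PartialOrder HS where
  le := le
  le_refl := by
    rintro (_ | _ | ⟨b, s⟩)
    · trivial
    · trivial
    · exact ⟨rfl, subset_refl _⟩
  le_trans := by
    rintro (_ | _ | ⟨b, s⟩) (_ | _ | ⟨b', s'⟩) (_ | _ | ⟨b'', s''⟩) h h' <;>
      first
        | trivial
        | exact h.elim
        | exact h'.elim
        | exact ⟨h.1.trans h'.1, subset_trans h.2 h'.2⟩
  le_antisymm := by
    rintro (_ | _ | ⟨b, s⟩) (_ | _ | ⟨b', s'⟩) h h' <;>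
      first
        | rfl
        | exact h.elim
        | exact h'.elim
        | (obtain ⟨rfl, h⟩ := h
           have e : s = s' := Subtype.ext (subset_antisymm h h'.2)
           rw [e])

theorem mid_le (b b' : Fin 3) (s s' : Mid) : mid b s ≤ mid b' s' ↔ b = b' ∧ s.1 ⊆ s'.1 := Iff.rfl

theorem bot_le' (x : HS) : bot ≤ x := by
  rcases x with (_ | _ | ⟨b, s⟩) <;> trivial

theorem le_top' (x : HS) : x ≤ top := by
  rcases x with (_ | _ | ⟨b, s⟩) <;> trivial

theorem mk_le (b : Fin 3) (s : Finset (Fin 4)) (t : Mid) (h : s ⊆ t.1) : mk b s ≤ mid b t := by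
  unfold mk
  split_ifs with h1
  · exact ⟨rfl, h⟩
  · exact bot_le' _

theorem meet_le_left (x y : HS) : meet x y ≤ x := by
  rcases x with (_ | _ | ⟨b, s⟩) <;> rcases y with (_ | _ | ⟨b', s'⟩) <;>
    first
      | exact le_refl _
      | exact bot_le' _
      | exact le_top' _
      | skip
  change (if b = b' then mk b (s.1 ∩ s'.1) else bot) ≤ mid b s
  split_ifs with h
  · exact mk_le _ _ _ Finset.inter_subset_left
  · exact bot_le' _

theorem meet_le_right (x y : HS) : meet x y ≤ y := by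
  rcases x with (_ | _ | ⟨b, s⟩) <;> rcases y with (_ | _ | ⟨b', s'⟩) <;>
    first
      | exact le_refl _
      | exact bot_le' _
      | exact le_top' _
      | skip
  change (if b = b' then mk b (s.1 ∩ s'.1) else bot) ≤ mid b' s'
  split_ifs with h
  · subst h
    exact mk_le _ _ _ Finset.inter_subset_right
  · exact bot_le' _

theorem le_meet (x y z : HS) (h : x ≤ y) (h' : x ≤ z) : x ≤ meet y z := by
  rcases x with (_ | _ | ⟨b, s⟩)
  · exact bot_le' _
  · rcases y with (_ | _ | ⟨b', s'⟩)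
    · exact h.elim
    · rcases z with (_ | _ | ⟨b'', s''⟩)
      · exact h'.elim
      · exact h
      · exact h'.elim
    · exact h.elim
  · rcases y with (_ | _ | ⟨b', s'⟩)
    · exact h.elim
    · rcases z with (_ | _ | ⟨b'', s''⟩)
      · exact h'.elim
      · exact h
      · exact h'
    · rcases z with (_ | _ | ⟨b'', s''⟩)
      · exact h'.elim
      · exact h
      · obtain ⟨rfl, h⟩ := h
        obtain ⟨rfl, h'⟩ := h'
        change mid b s ≤ (if b = b then mk b (s'.1 ∩ s''.1) else bot)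
        rw [if_pos rfl]
        have h2 : s.1 ⊆ s'.1 ∩ s''.1 := Finset.subset_inter h h'
        have h3 : s'.1 ∩ s''.1 ≠ ∅ ∧ s'.1 ∩ s''.1 ≠ Finset.univ := by
          refine ⟨fun e => s.2.1 ?_, fun e => s'.2.2 ?_⟩
          · rw [e] at h2; exact Finset.subset_empty.1 h2
          · have h4 : s'.1 ∩ s''.1 ⊆ s'.1 := Finset.inter_subset_left
            rw [e] at h4
            exact Finset.univ_subset_iff.1 h4
        unfold mk
        rw [dif_pos h3]
        exact ⟨rfl, h2⟩

theorem oc_oc (x : HS) : oc (oc x) = x := by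
  rcases x with (_ | _ | ⟨b, s⟩)
  · rfl
  · rfl
  · change mid b _ = mid b s
    congr 1
    exact Subtype.ext (compl_compl s.1)

theorem oc_anti (x y : HS) (h : x ≤ y) : oc y ≤ oc x := by
  rcases x with (_ | _ | ⟨b, s⟩)
  · exact le_top' _
  · rcases y with (_ | _ | ⟨b', s'⟩)
    · exact h.elim
    · exact le_refl _
    · exact h.elim
  · rcases y with (_ | _ | ⟨b', s'⟩)
    · exact h.elim
    · exact bot_le' _
    · exact ⟨h.1.symm, Finset.compl_subset_compl.2 h.2⟩

instance : OrthoLattice HS where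
  sup x y := oc (meet (oc x) (oc y))
  inf := meet
  le_sup_left x y := by
    have h := oc_anti _ _ (meet_le_left (oc x) (oc y))
    rwa [oc_oc] at h
  le_sup_right x y := by
    have h := oc_anti _ _ (meet_le_right (oc x) (oc y))
    rwa [oc_oc] at h
  sup_le x y z h h' := by
    have h2 := oc_anti _ _ (le_meet _ _ _ (oc_anti _ _ h) (oc_anti _ _ h'))
    rwa [oc_oc] at h2
  inf_le_left := meet_le_left
  inf_le_right := meet_le_right
  le_inf := le_meet
  top := top
  bot := bot
  le_top := le_top'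
  bot_le := bot_le'
  compl := oc
  compl_anti := oc_anti
  compl_compl' := oc_oc
  inf_compl := by
    rintro (_ | _ | ⟨b, s⟩)
    · rfl
    · rfl
    · change (if b = b then mk b (s.1 ∩ s.1ᶜ) else bot) = bot
      rw [if_pos rfl, Finset.inter_compl]
      unfold mk
      rw [dif_neg]
      rintro ⟨h, -⟩
      exact h rfl

theorem orthomodular (x y : HS) (h : x ≤ y) : x ⊔ (xᶜ ⊓ y) = y := by
  rcases x with (_ | _ | ⟨b, s⟩)
  · change oc (meet top (oc (meet top y))) = y
    rcases y with (_ | _ | ⟨b', s'⟩)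
    · rfl
    · rfl
    · change oc (oc (mid b' s')) = mid b' s'
      exact oc_oc _
  · rcases y with (_ | _ | ⟨b', s'⟩)
    · exact h.elim
    · rfl
    · exact h.elim
  · rcases y with (_ | _ | ⟨b', s'⟩)
    · exact h.elim
    · change oc (meet (oc (mid b s)) (oc (oc (mid b s)))) = top
      rw [oc_oc]
      change oc (if b = b then mk b (s.1ᶜ ∩ s.1) else bot) = top
      rw [if_pos rfl, Finset.inter_comm, Finset.inter_compl]
      unfold mk
      rw [dif_neg (fun h => h.1 rfl)]
      rfl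
    · obtain ⟨rfl, h⟩ := h
      change oc (meet (oc (mid b s)) (oc (if b = b then mk b (s.1ᶜ ∩ s'.1) else bot))) = mid b s'
      rw [if_pos rfl]
      by_cases e : s.1ᶜ ∩ s'.1 = ∅
      · have h2 : s'.1 ⊆ s.1 := by
          intro u hu
          by_contra hu'
          have : u ∈ s.1ᶜ ∩ s'.1 := Finset.mem_inter.2 ⟨Finset.mem_compl.2 hu', hu⟩
          rw [e] at this
          exact absurd this (Finset.notMem_empty u)
        have h3 : s = s' := Subtype.ext (subset_antisymm h h2)
        unfold mk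
        rw [dif_neg (fun h => h.1 e)]
        change oc (oc (mid b s)) = _
        rw [oc_oc, h3]
      · have h2 : s.1ᶜ ∩ s'.1 ≠ Finset.univ := by
          intro e2
          have h4 : s.1ᶜ ∩ s'.1 ⊆ s'.1 := Finset.inter_subset_right
          rw [e2] at h4
          exact s'.2.2 (Finset.univ_subset_iff.1 h4)
        unfold mk
        rw [dif_pos ⟨e, h2⟩]
        change oc (if b = b then mk b (s.1ᶜ ∩ (s.1ᶜ ∩ s'.1)ᶜ) else bot) = mid b s'
        rw [if_pos rfl]
        have h5 : s.1ᶜ ∩ (s.1ᶜ ∩ s'.1)ᶜ = s'.1ᶜ := by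
          ext u
          simp only [Finset.mem_inter, Finset.mem_compl]
          have := @h u
          tauto
        rw [h5]
        unfold mk
        have h6 : s'.1ᶜ ≠ ∅ ∧ s'.1ᶜ ≠ Finset.univ := by
          refine ⟨fun h => s'.2.2 ?_, fun h => s'.2.1 ?_⟩
          · rw [← compl_compl s'.1, h]; rfl
          · rw [← compl_compl s'.1, h]; rfl
        rw [dif_pos h6]
        change mid b _ = mid b s'
        congr 1
        exact Subtype.ext (compl_compl s'.1)

/-- elements of a block -/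
def el (b : Fin 3) (s : Finset (Fin 4)) (h : s ≠ ∅ ∧ s ≠ Finset.univ) : HS := mid b ⟨s, h⟩

end HS

section main

variable {n : ℕ} {f : HS → Bip n}

/-- `f` preserves joins, meets and orthocomplements -/
structure IsHom {K : Type} [OrthoLattice K] {n : ℕ} (f : K → Bip n) : Prop where
  sup : ∀ x y, f (x ⊔ y) = f x ⊔ f y
  inf : ∀ x y, f (x ⊓ y) = f x ⊓ f y
  compl : ∀ x, f xᶜ = (f x)ᶜ

theorem IsHom.mono {K : Type} [OrthoLattice K] {f : K → Bip n} (hf : IsHom f) {x y : K}
    (h : x ≤ y) : f x ≤ f y := by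
  have h2 := hf.inf x y
  rw [inf_eq_left.2 h] at h2
  rw [h2]
  exact inf_le_right

theorem IsHom.bot {K : Type} [OrthoLattice K] {f : K → Bip n} (hf : IsHom f) : f ⊥ = ⊥ := by
  have h2 := hf.inf ⊥ ⊥ᶜ
  rw [OrthoLattice.inf_compl, hf.compl, OrthoLattice.inf_compl] at h2
  exact h2

theorem row_contra {K : Type} [OrthoLattice K] {f : K → Bip n} (hf : IsHom f) {y c c' z : K}
    (h1 : y ≤ c) (h2 : y ≤ c') (h3 : cᶜ ≤ c') (h4 : c ⊓ z = ⊥) (h5 : c' ⊓ z = ⊥) (i j : Fin n)
    (hi : ∀ k, (i, k) ∈ (f y).rel) (hj : ∀ k, (j, k) ∈ (f z).rel) : False := by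
  have key : ∀ d, y ≤ d → d ⊓ z = ⊥ → (j, i) ∉ (f d).rel := by
    intro d hd hz h
    have h6 := Bip.row_inf (f d) (f z) j
      (fun k => (f d).trans j i k h (hf.mono hd (hi k))) hj j
    rw [← hf.inf, hz, hf.bot] at h6
    exact Bip.notMem_bot _ _ h6
  have h6 : (j, i) ∈ (f cᶜ).rel := by
    rw [hf.compl]; exact key c h1 h4
  exact key c' h2 h5 (hf.mono h3 h6)

theorem col_contra {K : Type} [OrthoLattice K] {f : K → Bip n} (hf : IsHom f) {y c c' z : K}
    (h1 : y ≤ c) (h2 : y ≤ c') (h3 : cᶜ ≤ c') (h4 : c ⊓ z = ⊥) (h5 : c' ⊓ z = ⊥) (i j : Fin n)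
    (hi : ∀ k, (k, i) ∈ (f y).rel) (hj : ∀ k, (k, j) ∈ (f z).rel) : False := by
  have key : ∀ d, y ≤ d → d ⊓ z = ⊥ → (i, j) ∉ (f d).rel := by
    intro d hd hz h
    have h6 := Bip.col_inf (f d) (f z) j
      (fun k => (f d).trans k i j (hf.mono hd (hi k)) h) hj j
    rw [← hf.inf, hz, hf.bot] at h6
    exact Bip.notMem_bot _ _ h6
  have h6 : (i, j) ∈ (f cᶜ).rel := by
    rw [hf.compl]; exact key c h1 h4
  exact key c' h2 h5 (hf.mono h3 h6)

/-- a middle element of block `b`, or its orthocomplement -/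
def md (b : Fin 3) (t : Bool) : HS :=
  if t then HS.el b {0, 1} (by decide) else HS.el b {2, 3} (by decide)

theorem md_compl (b : Fin 3) : (md b true)ᶜ = md b false := by
  revert b; decide

theorem exists_coatoms (b : Fin 3) (t : Bool) : ∃ c c' : HS, md b t ≤ c ∧ md b t ≤ c' ∧ cᶜ ≤ c' ∧
    (∀ b' t', b' ≠ b → c ⊓ md b' t' = ⊥) ∧ (∀ b' t', b' ≠ b → c' ⊓ md b' t' = ⊥) := by
  cases t
  · refine ⟨HS.el b {2, 3, 0} (by decide), HS.el b {2, 3, 1} (by decide), ⟨rfl, by decide⟩,
      ⟨rfl, by decide⟩, ⟨rfl, by decide⟩, ?_, ?_⟩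
    · intro b' t' h
      cases t' <;> exact if_neg h.symm
    · intro b' t' h
      cases t' <;> exact if_neg h.symm
  · refine ⟨HS.el b {0, 1, 2} (by decide), HS.el b {0, 1, 3} (by decide), ⟨rfl, by decide⟩,
      ⟨rfl, by decide⟩, ⟨rfl, by decide⟩, ?_, ?_⟩
    · intro b' t' h
      cases t' <;> exact if_neg h.symm
    · intro b' t' h
      cases t' <;> exact if_neg h.symm

theorem no_hom (hn : 0 < n) (f : HS → Bip n) (hf : IsHom f) : False := by
  have key : ∀ b : Fin 3, (∃ t i, ∀ k, (i, k) ∈ (f (md b t)).rel) ∨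
      (∃ t i, ∀ k, (k, i) ∈ (f (md b t)).rel) := by
    intro b
    rcases Bip.last hn (f (md b true)) with ⟨i, hi⟩ | ⟨i, hi⟩
    · left
      refine ⟨false, i, fun k => ?_⟩
      rw [← md_compl, hf.compl]
      exact hi k
    · right
      exact ⟨true, i, hi⟩
  have row : ∀ b b' : Fin 3, b ≠ b' → (∃ t i, ∀ k, (i, k) ∈ (f (md b t)).rel) →
      (∃ t i, ∀ k, (i, k) ∈ (f (md b' t)).rel) → False := by
    rintro b b' hb ⟨t, i, hi⟩ ⟨t', j, hj⟩
    obtain ⟨c, c', h1, h2, h3, h4, h5⟩ := exists_coatoms b t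
    exact row_contra hf h1 h2 h3 (h4 b' t' hb.symm) (h5 b' t' hb.symm) i j hi hj
  have col : ∀ b b' : Fin 3, b ≠ b' → (∃ t i, ∀ k, (k, i) ∈ (f (md b t)).rel) →
      (∃ t i, ∀ k, (k, i) ∈ (f (md b' t)).rel) → False := by
    rintro b b' hb ⟨t, i, hi⟩ ⟨t', j, hj⟩
    obtain ⟨c, c', h1, h2, h3, h4, h5⟩ := exists_coatoms b t
    exact col_contra hf h1 h2 h3 (h4 b' t' hb.symm) (h5 b' t' hb.symm) i j hi hj
  rcases key 0 with h0 | h0 <;> rcases key 1 with h1 | h1 <;> rcases key 2 with h2 | h2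
  · exact row 0 1 (by decide) h0 h1
  · exact row 0 1 (by decide) h0 h1
  · exact row 0 2 (by decide) h0 h2
  · exact col 1 2 (by decide) h1 h2
  · exact row 1 2 (by decide) h1 h2
  · exact col 0 2 (by decide) h0 h2
  · exact col 0 1 (by decide) h0 h1
  · exact col 0 1 (by decide) h0 h1

end main

/-- There is a finite ortholattice, with 44 elements and even orthomodular, which embeds into no
bipartition lattice `Bip n`, `n ≥ 1`; indeed no map from it to `Bip n` with `n ≥ 1`, injective or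
not, preserves joins, meets and orthocomplements. -/
theorem result : ∃ (K : Type) (_ : OrthoLattice K), Nat.card K = 44 ∧
    (∀ x y : K, x ≤ y → x ⊔ (xᶜ ⊓ y) = y) ∧
    ∀ n : ℕ, 0 < n → ¬ ∃ f : K → Bip n, (∀ x y, f (x ⊔ y) = f x ⊔ f y) ∧
      (∀ x y, f (x ⊓ y) = f x ⊓ f y) ∧ ∀ x, f xᶜ = (f x)ᶜ := by
  refine ⟨HS, inferInstance, ?_, HS.orthomodular, ?_⟩
  · rw [Nat.card_eq_fintype_card]
    rfl
  · rintro n hn ⟨f, h1, h2, h3⟩
    exact no_hom hn f ⟨h1, h2, h3⟩

end Pool.Agent.Results.MP_35d0eb_al.NotEmbeddable
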